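import Pool.Agent.Run7.h901.PO.Iface

/-!
Project PO (helper901), piece BAS.
-/

set_option autoImplicit false

namespace Run7.h896.PO

open Run7.h901.PO

section
variable {P : Type} [PartialOrder P] {c : P → P → Prop}

theorem aut_waut (hc : Equivalence c) (g : P ≃o P) (hg : Aut c g) : WAut c g := by
  intro x y
  constructor
  · intro h
    exact hc.trans (hc.symm (hg x)) (hc.trans h (hg y))
  · intro h
    exact hc.trans (hg x) (hc.trans h (hc.symm (hg y)))

theorem aut_symm (hc : Equivalence c) (g : P ≃o P) (hg : Aut c g) : Aut c g.symm := by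
  intro x
  have h := hg (g.symm x)
  rw [OrderIso.apply_symm_apply] at h
  exact hc.symm h

theorem aut_trans (hc : Equivalence c) (g h : P ≃o P) (hg : Aut c g) (hh : Aut c h) :
    Aut c (g.trans h) := fun x => hc.trans (hg x) (hh (g x))

theorem waut_symm (g : P ≃o P) (hg : WAut c g) : WAut c g.symm := by
  intro x y
  have h := hg (g.symm x) (g.symm y)
  rw [OrderIso.apply_symm_apply, OrderIso.apply_symm_apply] at h
  exact h.symm

theorem waut_trans (g h : P ≃o P) (hg : WAut c g) (hh : WAut c h) : WAut c (g.trans h) :=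
  fun x y => (hg x y).trans (hh (g x) (g y))

theorem inc_symm {x y : P} (h : Inc x y) : Inc y x := ⟨h.2, h.1⟩

theorem inc_map (g : P ≃o P) {x y : P} (h : Inc x y) : Inc (g x) (g y) := by
  refine ⟨fun h1 => h.1 ?_, fun h1 => h.2 ?_⟩
  · exact (OrderIso.le_iff_le g).1 h1
  · exact (OrderIso.le_iff_le g).1 h1

theorem rtg_equiv {α : Type} (r : α → α → Prop) (hr : ∀ a b, r a b → r b a) :
    Equivalence (Relation.ReflTransGen r) := by
  refine ⟨fun x => Relation.ReflTransGen.refl, fun {x y} h => ?_, fun h h' => h.trans h'⟩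
  induction h with
  | refl => exact Relation.ReflTransGen.refl
  | tail _ h2 ih => exact Relation.ReflTransGen.head (hr _ _ h2) ih

theorem rtg_map {α : Type} (r : α → α → Prop) (g : α → α) (hg : ∀ a b, r a b → r (g a) (g b))
    {x y : α} (h : Relation.ReflTransGen r x y) : Relation.ReflTransGen r (g x) (g y) := by
  induction h with
  | refl => exact Relation.ReflTransGen.refl
  | tail _ h2 ih => exact ih.tail (hg _ _ h2)

theorem rtg_sub {α : Type} (r s : α → α → Prop) (hs : Equivalence s) (h : ∀ a b, r a b → s a b)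
    {x y : α} (hxy : Relation.ReflTransGen r x y) : s x y := by
  induction hxy with
  | refl => exact hs.refl _
  | tail _ h2 ih => exact hs.trans ih (h _ _ h2)

theorem differs_map (g : P ≃o P) {z x x' : P} (h : Differs z x x') :
    Differs (g z) (g x) (g x') := by
  intro h1
  apply h
  simpa only [OrderIso.le_iff_le] using h1

theorem blk_map (g : P ≃o P) (hg : WAut c g) {x y : P} (h : Blk c x y) : Blk c (g x) (g y) := by
  induction h with
  | refl x => exact Blk.refl _
  | symm _ ih => exact Blk.symm ih
  | trans _ _ ih1 ih2 => exact Blk.trans ih1 ih2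
  | ic h1 h2 => exact Blk.ic ((hg _ _).1 h1) (inc_map g h2)
  | split _ h2 h3 ih => exact Blk.split ih ((hg _ _).1 h2) (differs_map g h3)

end

/-- BAS. -/
theorem t_BAS : S_BAS := by
  intro P _ c hc
  have hicE : Equivalence (ic c) := rtg_equiv _ fun a b h => ⟨hc.symm h.1, inc_symm h.2⟩
  have hccE : Equivalence (cc c) := rtg_equiv _ fun a b h => ⟨hc.symm h.1, h.2.symm⟩
  have hbE : Equivalence (Blk c) := ⟨fun x => Blk.refl x, fun h => Blk.symm h,
    fun h h' => Blk.trans h h'⟩
  have hcmp : ∀ x y, c x y → x ≠ y → ¬ Inc x y → x < y ∨ y < x := by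
    intro x y _ hne hinc
    by_cases h1 : x ≤ y
    · exact Or.inl (lt_of_le_of_ne h1 hne)
    · by_cases h2 : y ≤ x
      · exact Or.inr (lt_of_le_of_ne h2 (Ne.symm hne))
      · exact absurd ⟨h1, h2⟩ hinc
  refine ⟨fun g hg => aut_waut hc g hg, fun x => hc.refl x, fun g hg => aut_symm hc g hg,
    fun g h hg hh => aut_trans hc g h hg hh, fun x y => Iff.rfl, fun g hg => waut_symm g hg,
    fun g h hg hh => waut_trans g h hg hh, hicE, hccE, hbE, ?_, ?_, ?_, ?_, ?_, ?_, ?_, ?_, ?_⟩
  · intro x y h
    exact rtg_sub _ c hc (fun a b h => h.1) h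
  · intro x y h
    exact rtg_sub _ c hc (fun a b h => h.1) h
  · intro x y h
    exact rtg_sub _ (Blk c) hbE (fun a b h => Blk.ic h.1 h.2) h
  · intro x y hxy h
    refine hcmp x y hxy ?_ ?_
    · rintro rfl
      exact h (hicE.refl _)
    · intro h1
      exact h (Relation.ReflTransGen.single ⟨hxy, h1⟩)
  · intro x y hxy h
    refine hcmp x y hxy ?_ ?_
    · rintro rfl
      exact h (Blk.refl _)
    · intro h1
      exact h (Blk.ic hxy h1)
  · intro g hg x y
    constructor
    · intro h
      exact rtg_map _ g (fun a b h => ⟨(hg a b).1 h.1, inc_map g h.2⟩) h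
    · intro h
      have h1 := rtg_map _ g.symm (fun a b h => ⟨(waut_symm g hg a b).1 h.1, inc_map g.symm h.2⟩) h
      rwa [OrderIso.symm_apply_apply, OrderIso.symm_apply_apply] at h1
  · intro g hg x y
    constructor
    · intro h
      refine rtg_map _ g (fun a b h => ⟨(hg a b).1 h.1, ?_⟩) h
      simpa only [OrderIso.le_iff_le] using h.2
    · intro h
      have h1 := rtg_map _ g.symm (fun a b h => ⟨(waut_symm g hg a b).1 h.1,
        show g.symm a ≤ g.symm b ∨ g.symm b ≤ g.symm a by
          simpa only [OrderIso.le_iff_le] using h.2⟩) h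
      rwa [OrderIso.symm_apply_apply, OrderIso.symm_apply_apply] at h1
  · intro g hg x y
    constructor
    · intro h
      exact blk_map g hg h
    · intro h
      have h1 := blk_map g.symm (waut_symm g hg) h
      rwa [OrderIso.symm_apply_apply, OrderIso.symm_apply_apply] at h1
  · intro z x x' hz hx hcx
    by_contra hd
    exact hz (Blk.split hx hcx hd)

end Run7.h896.PO
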