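import Pool.Agent.Run7.h901.PO.Iface

/-!
Project PO (helper901), piece DIR.
-/

set_option autoImplicit false

namespace Run7.h896.PO

open Run7.h901.PO

/-- `n` is the size of an antichain of elements of colour `u` above `u`. -/
def AS {P : Type} (c le : P → P → Prop) (u : P) (n : ℕ) : Prop :=
  ∃ s : Finset P, s.card = n ∧ (∀ a ∈ s, ∀ b ∈ s, le a b → a = b) ∧ ∀ a ∈ s, c u a ∧ le u a

theorem as_map {P : Type} {c le : P → P → Prop} (hc : Equivalence c)
    (g : P ≃ P) (hle : ∀ x y, le x y ↔ le (g x) (g y)) (hg : ∀ x, c x (g x)) {u : P} {n : ℕ}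
    (h : AS c le u n) : AS c le (g u) n := by
  classical
  obtain ⟨s, hs, hanti, hup⟩ := h
  refine ⟨s.map g.toEmbedding, by rw [Finset.card_map, hs], ?_, ?_⟩
  · intro a ha b hb hab
    rw [Finset.mem_map] at ha hb
    obtain ⟨a, ha, rfl⟩ := ha
    obtain ⟨b, hb, rfl⟩ := hb
    have h1 : le a b := (hle a b).2 hab
    rw [hanti a ha b hb h1]
  · intro a ha
    rw [Finset.mem_map] at ha
    obtain ⟨a, ha, rfl⟩ := ha
    obtain ⟨h1, h2⟩ := hup a ha
    exact ⟨hc.trans (hc.symm (hg u)) (hc.trans h1 (hg a)), (hle u a).1 h2⟩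

/-- The first statement, for an abstract order relation. -/
theorem dir_one {P : Type} {c le : P → P → Prop} (hc : Equivalence c)
    (hrefl : ∀ x, le x x) (htr : ∀ x y z, le x y → le y z → le x z)
    (htrans : ∀ x y, c x y → ∃ g : P ≃ P, (∀ a b, le a b ↔ le (g a) (g b)) ∧ (∀ a, c a (g a)) ∧
      g x = y)
    (w : ℕ) (hw : ∀ s : Finset P, (∀ a ∈ s, ∀ b ∈ s, le a b → a = b) → s.card ≤ w)
    (x y z : P) (hxy : c x y) (hxz : c x z) (h1 : le x y) (h2 : le x z) :
    ∃ t, c x t ∧ le y t ∧ le z t := by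
  classical
  -- the maximal size above `z`
  have hbd : ∀ n, AS c le z n → n ≤ w := by
    rintro n ⟨s, rfl, hs, _⟩
    exact hw s hs
  have hne : ∃ n, AS c le z n := ⟨0, ∅, rfl, by simp, by simp⟩
  obtain ⟨n, hn, hmax⟩ : ∃ n, AS c le z n ∧ ∀ m, AS c le z m → m ≤ n := by
    have h := Nat.findGreatest_spec (P := AS c le z) (hbd _ hne.choose_spec) hne.choose_spec
    exact ⟨Nat.findGreatest (AS c le z) w, h, fun m hm => Nat.le_findGreatest (hbd m hm) hm⟩
  -- the same above `x`
  have hmaxx : ∀ m, AS c le x m → m ≤ n := by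
    intro m hm
    obtain ⟨g, hg1, hg2, hg3⟩ := htrans x z hxz
    have := as_map hc g hg1 hg2 hm
    rw [hg3] at this
    exact hmax m this
  obtain ⟨s, hs, hanti, hup⟩ := hn
  by_cases hys : ∃ t ∈ s, le y t ∨ le t y
  · obtain ⟨t, ht, h | h⟩ := hys
    · exact ⟨t, hc.trans hxz (hup t ht).1, h, (hup t ht).2⟩
    · exact ⟨y, hxy, hrefl y, htr _ _ _ (hup t ht).2 h⟩
  · exfalso
    push Not at hys
    have hyn : y ∉ s := fun hy => (hys y hy).1 (hrefl y)
    have h3 : AS c le x (n + 1) := by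
      refine ⟨insert y s, by rw [Finset.card_insert_of_notMem hyn, hs], ?_, ?_⟩
      · intro a ha b hb hab
        rcases Finset.mem_insert.1 ha with h5 | h5 <;> rcases Finset.mem_insert.1 hb with h6 | h6
        · rw [h5, h6]
        · rw [h5] at hab
          exact absurd hab (hys b h6).1
        · rw [h6] at hab
          exact absurd hab (hys a h5).2
        · exact hanti a h5 b h6 hab
      · intro a ha
        rcases Finset.mem_insert.1 ha with rfl | ha
        · exact ⟨hxy, h1⟩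
        · exact ⟨hc.trans hxz (hup a ha).1, htr _ _ _ h2 (hup a ha).2⟩
    have := hmaxx _ h3
    omega

/-- Upper bounds along paths. -/
theorem dir_two {P : Type} {c le : P → P → Prop} (hc : Equivalence c)
    (hrefl : ∀ x, le x x) (htr : ∀ x y z, le x y → le y z → le x z)
    (htrans : ∀ x y, c x y → ∃ g : P ≃ P, (∀ a b, le a b ↔ le (g a) (g b)) ∧ (∀ a, c a (g a)) ∧
      g x = y)
    (w : ℕ) (hw : ∀ s : Finset P, (∀ a ∈ s, ∀ b ∈ s, le a b → a = b) → s.card ≤ w)
    (y z : P) (h : Relation.ReflTransGen (fun a b => c a b ∧ (le a b ∨ le b a)) y z) :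
    c y z ∧ ∃ t, c y t ∧ le y t ∧ le z t := by
  induction h with
  | refl => exact ⟨hc.refl _, y, hc.refl _, hrefl _, hrefl _⟩
  | @tail b d _ hbd ih =>
    obtain ⟨hyb, t, hyt, h1, h2⟩ := ih
    refine ⟨hc.trans hyb hbd.1, ?_⟩
    rcases hbd.2 with h3 | h3
    · obtain ⟨t', ht', h4, h5⟩ := dir_one hc hrefl htr htrans w hw b t d
        (hc.trans (hc.symm hyb) hyt) hbd.1 h2 h3
      exact ⟨t', hc.trans hyb ht', htr _ _ _ h1 h4, h5⟩
    · exact ⟨t, hyt, h1, htr _ _ _ h3 h2⟩

/-- DIR. -/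
theorem t_DIR : S_BAS → S_DIR := by
  intro _ P _ c hc hTr hFW y z hyz
  obtain ⟨w, hw⟩ := hFW
  constructor
  · refine (dir_two (le := fun a b : P => a ≤ b) hc (fun x => le_refl x)
      (fun x y z => le_trans) ?_ w ?_ y z hyz).2
    · intro a b hab
      obtain ⟨g, hg, hgab⟩ := hTr a b hab
      exact ⟨g.toEquiv, fun a b => (OrderIso.le_iff_le g).symm, hg, hgab⟩
    · intro s hs
      refine hw s ?_
      intro a ha b hb hne hle
      exact hne (hs a ha b hb hle)
  · refine (dir_two (le := fun a b : P => b ≤ a) hc (fun x => le_refl x)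
      (fun x y z h h' => le_trans h' h) ?_ w ?_ y z ?_).2
    · intro a b hab
      obtain ⟨g, hg, hgab⟩ := hTr a b hab
      exact ⟨g.toEquiv, fun a b => (OrderIso.le_iff_le g).symm, hg, hgab⟩
    · intro s hs
      refine hw s ?_
      intro a ha b hb hne hle
      exact hne (hs b hb a ha hle).symm
    · exact Relation.ReflTransGen.mono (r := fun a b => c a b ∧ (a ≤ b ∨ b ≤ a))
        (p := fun a b => c a b ∧ (b ≤ a ∨ a ≤ b)) (fun a b h => ⟨h.1, h.2.symm⟩) y z hyz

end Run7.h896.PO
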